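import Pool.Agent.Helper36.CV.StmtsE
import Pool.Agent.Helper36.CV.StmtsW

/-! Module E14: the final statement. -/

set_option autoImplicit false

namespace Pool.Agent.Helper36.CV

open Complex Filter Topology MeasureTheory Set Pointwise

noncomputable section

theorem e14_dense (A0 B0 : ℝ) (h : A0 < B0) (U : Set ℝ) (hU : Ioo A0 B0 ⊆ closure U) :
    Dense (U ∪ (Icc A0 B0)ᶜ) := by
  rw [dense_iff_closure_eq, closure_union, eq_univ_iff_forall]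
  intro x
  by_cases hx : x ∈ Icc A0 B0
  · left
    have h1 : closure (Ioo A0 B0) ⊆ closure U := closure_minimal hU isClosed_closure
    apply h1
    rw [closure_Ioo h.ne]
    exact hx
  · right
    exact subset_closure hx

theorem e14_baire (A0 B0 : ℝ) (h : A0 < B0) (U U' : ℕ → Set ℝ)
    (hU : ∀ n, IsOpen (U n) ∧ Ioo A0 B0 ⊆ closure (U n))
    (hU' : ∀ n, IsOpen (U' n) ∧ Ioo A0 B0 ⊆ closure (U' n)) :
    ∃ l ∈ Ioo A0 B0, (∀ n, l ∈ U n) ∧ ∀ n, l ∈ U' n := by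
  let f : ℕ ⊕ ℕ → Set ℝ := Sum.elim (fun n => U n ∪ (Icc A0 B0)ᶜ) (fun n => U' n ∪ (Icc A0 B0)ᶜ)
  have ho : ∀ i, IsOpen (f i) := by
    rintro (n | n)
    · exact (hU n).1.union isClosed_Icc.isOpen_compl
    · exact (hU' n).1.union isClosed_Icc.isOpen_compl
  have hd : ∀ i, Dense (f i) := by
    rintro (n | n)
    · exact e14_dense A0 B0 h _ (hU n).2
    · exact e14_dense A0 B0 h _ (hU' n).2
  have h1 := dense_iInter_of_isOpen ho hd
  obtain ⟨l, hl, hl2⟩ := h1.inter_open_nonempty (Ioo A0 B0) isOpen_Ioo (nonempty_Ioo.2 h)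
  rw [mem_iInter] at hl2
  refine ⟨l, hl, fun n => ?_, fun n => ?_⟩
  · rcases hl2 (Sum.inl n) with h2 | h2
    · exact h2
    · exact absurd (Ioo_subset_Icc_self hl) h2
  · rcases hl2 (Sum.inr n) with h2 | h2
    · exact h2
    · exact absurd (Ioo_subset_Icc_self hl) h2

theorem st_E14 (hE11 : ST_E11) (hE12 : ST_E12) (hE13 : ST_E13) (hR21 : ST_R21) (hW5 : ST_W5)
    (hF2 : ST_F2) (hO11 : ST_O11) : ST_E14 := by
  obtain ⟨cK, L1, hcK, hL1, H12⟩ := hE12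
  obtain ⟨e1, he1, H21⟩ := hR21 cK hcK
  obtain ⟨e2, he2, H11⟩ := hE11 cK hcK
  obtain ⟨l0, hl0, HW⟩ := hW5
  set L : ℝ := 1 + L1 + 1 / (2 * e1) + 1 / (2 * e2) + 1 / l0 with hL
  have p1 : 0 < 1 / (2 * e1) := by positivity
  have p2 : 0 < 1 / (2 * e2) := by positivity
  have p3 : 0 < 1 / l0 := by positivity
  have hL1' : 1 ≤ L := by rw [hL]; linarith
  obtain ⟨l1, A0, B0, hA, hA0, hAB, hl1, hAr, hl1L, hPar⟩ := hE13 L hL1'
  have hLpos : 0 < L := by linarith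
  have hinv : ∀ e : ℝ, 0 < e → 1 / (2 * e) ≤ L → ∀ x : ℝ, L ≤ x → 1 / (2 * x) ≤ e := by
    intro e he hle x hx
    have hx0 : 0 < x := by linarith
    rw [div_le_iff₀ (by positivity)] at hle ⊢
    nlinarith
  have hq1 := hinv e1 he1 (by rw [hL]; linarith)
  have hq2 := hinv e2 he2 (by rw [hL]; linarith)
  have hl10 : |l1| ≤ l0 := by
    refine hl1L.trans ?_
    rw [div_le_iff₀ hLpos]
    have h1 : 1 / l0 ≤ L := by rw [hL]; linarith
    rw [div_le_iff₀ hl0] at h1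
    linarith
  set Hm : ℝ := |l1| / (2 * Real.pi ^ 2) * (1 - 12 * |l1|) with hHm
  set Hp : ℝ := |l1| / (2 * Real.pi ^ 2) * (1 + 12 * |l1|) with hHp
  have hP2 := hPar Hm Hp rfl rfl
  obtain ⟨cd1⟩ : Nonempty (CD Hm Hp (Cs l1)) := HW l1 hl1 hl10
  obtain ⟨cd2⟩ : Nonempty (CD Hm Hp (Cs (-l1))) := by
    have h1 := HW (-l1) (by rwa [abs_neg]) (by rwa [abs_neg])
    rw [abs_neg] at h1
    exact h1
  obtain ⟨⟨F1⟩, ⟨F2⟩⟩ := H12 A0 B0 (by rw [hL] at hA; linarith) hAB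
  obtain ⟨U, hU, hLE⟩ := H11 Hm Hp (Cs l1) cd1 A0 B0 _ hA0 hAB (hq2 A0 hA) (hO11 l1).2 hP2 F1
  obtain ⟨U', hU', hLE'⟩ := H11 Hm Hp (Cs (-l1)) cd2 A0 B0 _ hA0 hAB (hq2 A0 hA) (hO11 (-l1)).2
    hP2 F2
  obtain ⟨l2, hl2, hUl, hUl'⟩ := e14_baire A0 B0 hAB U U' hU hU'
  refine ⟨l1, l2, ?_, hLE l2 hl2 hUl, ?_⟩
  · have hcomp : IsCompact (Cs l1 + Cs l2) := (hO11 l1).2.add (hO11 l2).2
    apply subset_antisymm
    · exact closure_minimal interior_subset hcomp.isClosed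
    · have hp := hP2 l2 hl2
      have h5 : 0 < Real.sqrt 5 := Real.sqrt_pos.2 (by norm_num)
      have hHm0 : 0 < Hm := by
        have h6 := hp.2.2
        have h7 := hp.1
        have h8 : 0 < 1 / (2 * l2) * (1 + 42 * (1 / (2 * l2))) := by positivity
        have h9 : 0 < 4 * Real.sqrt 5 * Hm := lt_of_lt_of_le h8 h6
        exact pos_of_mul_pos_right h9 (by positivity)
      exact H21 (1 / (2 * l2)) Hm Hp (Cs l1) cd1 ⟨hp.1, hHm0, hp.2.1⟩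
        (hq1 l2 (hA.trans hl2.1.le)) (hAr l2 hl2) (Cs l2) F1.ι (fun j => F1.lo j l2)
        (fun j => F1.hi j l2) F1.t F1.g (F1.kd l2 hl2) (hO11 l1).2.isClosed (hO11 l2).2.isClosed
  · apply hF2.1
    rw [hF2.2.2, hF2.2.1 l1]
    exact hLE' l2 hl2 hUl'

end

end Pool.Agent.Helper36.CV
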